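import Mathlib

/-! Choosing members of a family of sets with the swap property, with small discrepancy. -/

set_option autoImplicit false

namespace Pool.Agent.K1H93.KB

open Finset

/-- the vectors lie in the closed Euclidean unit ball -/
def InBall {n d : ℕ} (v : Fin n → Fin d → ℝ) : Prop := ∀ i, ∑ k, v i k ^ 2 ≤ 1

/-- some signing has value at most `B` -/
def HasSigning {n d : ℕ} (v : Fin n → Fin d → ℝ) (B : ℝ) : Prop :=
  ∃ ε : Fin n → ℝ, (∀ i, ε i = 1 ∨ ε i = -1) ∧ ∀ k, |∑ i, ε i * v i k| ≤ B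

/-- all families of at most `K` vectors in the unit ball of `ℝ^d` have signings of value at most `B` -/
def Bd (K d : ℕ) (B : ℝ) : Prop := ∀ k ≤ K, ∀ w : Fin k → Fin d → ℝ, InBall w → HasSigning w B

lemma sign_finset {K d : ℕ} {B : ℝ} (hB : Bd K d B) {T : Type*} [DecidableEq T] (S : Finset T) (hS : S.card ≤ K)
    (u : T → Fin d → ℝ) (hu : ∀ t ∈ S, ∑ k, u t k ^ 2 ≤ 1) :
    ∃ ε : T → ℝ, (∀ t, ε t = 1 ∨ ε t = -1) ∧ ∀ k, |∑ t ∈ S, ε t * u t k| ≤ B := by
  classical
  obtain ⟨ε, h1, h2⟩ := hB S.card hS (fun i k => u (S.equivFin.symm i) k) (fun i => hu _ (S.equivFin.symm i).2)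
  refine ⟨fun t => if h : t ∈ S then ε (S.equivFin ⟨t, h⟩) else 1, fun t => ?_, fun k => ?_⟩
  · dsimp only
    split_ifs with h
    · exact h1 _
    · left; rfl
  · refine le_of_eq_of_le ?_ (h2 k)
    congr 1
    rw [← Finset.sum_coe_sort S]
    rw [← Equiv.sum_comp S.equivFin (fun i => ε i * u (S.equivFin.symm i) k)]
    apply sum_congr rfl
    intro t _
    beta_reduce
    rw [dif_pos t.2]
    simp

/-- families with repeated vectors: only the number of distinct vectors matters -/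
lemma sign_types {K d : ℕ} {B : ℝ} (hB : Bd K d B) {T : Type*} [DecidableEq T] [Fintype T]
    (hT : Fintype.card T ≤ K) (u : T → Fin d → ℝ) (hu : ∀ t, ∑ k, u t k ^ 2 ≤ 1) {α : Type*} [DecidableEq α]
    (τ : α → T) : ∀ (m : ℕ) (S : Finset α), S.card ≤ m →
    ∃ ε : α → ℝ, (∀ a, ε a = 1 ∨ ε a = -1) ∧ ∀ k, |∑ a ∈ S, ε a * u (τ a) k| ≤ B := by
  intro m
  induction m using Nat.strong_induction_on with
  | _ m ih =>
    intro S hS
    by_cases hinj : Set.InjOn τ S
    · obtain ⟨ε, h1, h2⟩ := sign_finset hB (S.image τ) ((card_le_univ _).trans hT) u (fun t _ => hu t)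
      refine ⟨fun a => ε (τ a), fun a => h1 _, fun k => ?_⟩
      have := h2 k
      rwa [sum_image hinj] at this
    · rw [Set.InjOn] at hinj
      push Not at hinj
      obtain ⟨a, ha, b, hb, hab, hne⟩ := hinj
      have ha' : a ∈ S := ha
      have hb' : b ∈ S := hb
      have hb2 : b ∈ S.erase a := mem_erase.2 ⟨hne.symm, hb'⟩
      have hc : ((S.erase a).erase b).card < m := by
        rw [card_erase_of_mem hb2, card_erase_of_mem ha']
        have := card_pos.2 ⟨a, ha'⟩
        omega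
      obtain ⟨ε, h1, h2⟩ := ih _ hc ((S.erase a).erase b) le_rfl
      refine ⟨fun x => if x = a then 1 else if x = b then -1 else ε x, fun x => ?_, fun k => ?_⟩
      · dsimp only
        split_ifs with h h'
        · left; rfl
        · right; rfl
        · exact h1 x
      · refine le_of_eq_of_le ?_ (h2 k)
        congr 1
        rw [← add_sum_erase S _ ha', ← add_sum_erase (S.erase a) _ hb2]
        beta_reduce
        rw [if_pos rfl, if_neg hne.symm, if_pos rfl, hab]
        have : ∑ x ∈ (S.erase a).erase b, (if x = a then (1 : ℝ) else if x = b then -1 else ε x) * u (τ x) k =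
            ∑ x ∈ (S.erase a).erase b, ε x * u (τ x) k := by
          apply sum_congr rfl
          intro x hx
          rw [mem_erase, mem_erase] at hx
          rw [if_neg hx.2.1, if_neg hx.1]
        rw [this]
        ring

/-- The exchange property with blocks of size `k` of a family of sets: for all members `A`, `A'` the symmetric
difference is a disjoint union of blocks of at most `k` elements, such that every union of blocks can be exchanged. -/
def Toggle {n : ℕ} (k : ℕ) (F : Set (Finset (Fin n))) : Prop :=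
  ∀ A ∈ F, ∀ A' ∈ F, ∃ P : Finset (Finset (Fin n)), (∀ b ∈ P, b.card ≤ k) ∧
    (P : Set (Finset (Fin n))).PairwiseDisjoint id ∧ P.biUnion id = symmDiff A A' ∧
    ∀ Q ⊆ P, symmDiff A (Q.biUnion id) ∈ F

/-- the sum of the vectors of `A` -/
noncomputable def vs {n d : ℕ} (v : Fin n → Fin d → ℝ) (A : Finset (Fin n)) (k : Fin d) : ℝ := ∑ j ∈ A, v j k

/-- the signed vectors: `v j` for the sign `true` and `- v j` for the sign `false` -/
noncomputable def sg {n d : ℕ} (v : Fin n → Fin d → ℝ) (c : Fin d) (p : Fin n × Bool) : ℝ :=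
  if p.2 then v p.1 c else - v p.1 c

lemma sg_sq {n d : ℕ} (v : Fin n → Fin d → ℝ) (c : Fin d) (p : Fin n × Bool) : sg v c p ^ 2 = v p.1 c ^ 2 := by
  unfold sg
  split_ifs <;> ring

/-- codes of the blocks -/
lemma enc {n : ℕ} : ∀ (k : ℕ) (c : Finset (Fin n)), c.card ≤ k → ∀ σ : Fin n → Bool,
    ∃ t : Fin k → Option (Fin n × Bool), ∀ g : Fin n × Bool → ℝ, ∑ i, (t i).elim 0 g = ∑ j ∈ c, g (j, σ j) := by
  classical
  intro k
  induction k with
  | zero =>
    intro c hc σ
    have : c = ∅ := by rw [← card_eq_zero]; omega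
    subst this
    exact ⟨fun i => i.elim0, fun g => by simp⟩
  | succ k ih =>
    intro c hc σ
    rcases c.eq_empty_or_nonempty with rfl | ⟨j, hj⟩
    · exact ⟨fun _ => none, fun g => by simp⟩
    · obtain ⟨t, ht⟩ := ih (c.erase j) (by rw [card_erase_of_mem hj]; omega) σ
      refine ⟨Fin.cons (some (j, σ j)) t, fun g => ?_⟩
      rw [Fin.sum_univ_succ]
      simp only [Fin.cons_zero, Fin.cons_succ, Option.elim_some]
      rw [ht g, add_sum_erase c (fun j => g (j, σ j)) hj]

/-- the vector of a code, divided by `k` -/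
noncomputable def uc {n d : ℕ} (v : Fin n → Fin d → ℝ) (k : ℕ) (t : Fin k → Option (Fin n × Bool)) (c : Fin d) : ℝ :=
  (∑ i, (t i).elim 0 (sg v c)) / k

lemma uc_ball {n d : ℕ} {v : Fin n → Fin d → ℝ} (hv : InBall v) (k : ℕ) (t : Fin k → Option (Fin n × Bool)) :
    ∑ c, uc v k t c ^ 2 ≤ 1 := by
  rcases Nat.eq_zero_or_pos k with rfl | hk
  · have : ∀ c, uc v 0 t c = 0 := by intro c; unfold uc; simp
    simp [this]
  have hk' : (0 : ℝ) < k := by exact_mod_cast hk
  have h1 : ∀ c, uc v k t c ^ 2 ≤ (∑ i, ((t i).elim 0 (sg v c)) ^ 2) / k := by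
    intro c
    unfold uc
    rw [div_pow, div_le_div_iff₀ (by positivity) hk']
    have := sq_sum_le_card_mul_sum_sq (s := (Finset.univ : Finset (Fin k))) (f := fun i => (t i).elim 0 (sg v c))
    rw [card_univ, Fintype.card_fin] at this
    calc (∑ i, (t i).elim 0 (sg v c)) ^ 2 * k ≤ (k * ∑ i, ((t i).elim 0 (sg v c)) ^ 2) * k := by gcongr
      _ = _ := by ring
  refine (sum_le_sum fun c _ => h1 c).trans ?_
  rw [← sum_div, div_le_one hk', sum_comm]
  calc ∑ i : Fin k, ∑ c, ((t i).elim 0 (sg v c)) ^ 2 ≤ ∑ _i : Fin k, (1 : ℝ) := by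
        apply sum_le_sum
        intro i _
        rcases h : t i with _ | p
        · simp
        · simp only [Option.elim_some]
          simp_rw [sg_sq]
          exact hv p.1
    _ = k := by simp

/-- the exchange of the blocks of `Q` -/
lemma vs_toggle {n d : ℕ} (v : Fin n → Fin d → ℝ) (A X : Finset (Fin n)) (c : Fin d) :
    vs v (symmDiff A X) c = vs v A c - ∑ j ∈ X, sg v c (j, decide (j ∈ A)) := by
  classical
  unfold vs
  have e1 : symmDiff A X = (A \ X) ∪ (X \ A) := by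
    rw [symmDiff_def]; rfl
  have e2 : Disjoint (A \ X) (X \ A) := disjoint_sdiff_sdiff
  rw [e1, sum_union e2]
  have e3 : ∑ j ∈ A, v j c = ∑ j ∈ A \ X, v j c + ∑ j ∈ A ∩ X, v j c := by
    rw [← sum_sdiff (inter_subset_left : A ∩ X ⊆ A), sdiff_inter_self_left]
  have e4 : ∑ j ∈ X, sg v c (j, decide (j ∈ A)) = -∑ j ∈ X \ A, v j c + ∑ j ∈ A ∩ X, v j c := by
    rw [← sum_sdiff (inter_subset_right : A ∩ X ⊆ X), sdiff_inter_self_right, ← sum_neg_distrib]
    congr 1
    · apply sum_congr rfl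
      intro j hj
      rw [mem_sdiff] at hj
      unfold sg
      simp [hj.2]
    · apply sum_congr rfl
      intro j hj
      rw [mem_inter] at hj
      unfold sg
      simp [hj.1]
  rw [e3, e4]
  ring

lemma sum_blocks {n d : ℕ} (v : Fin n → Fin d → ℝ) (A : Finset (Fin n)) (Q : Finset (Finset (Fin n)))
    (hQ : (Q : Set (Finset (Fin n))).PairwiseDisjoint id) (c : Fin d) :
    ∑ j ∈ Q.biUnion id, sg v c (j, decide (j ∈ A)) = ∑ b ∈ Q, ∑ j ∈ b, sg v c (j, decide (j ∈ A)) := by
  rw [sum_biUnion hQ]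
  rfl

lemma swap_pair {n : ℕ} {A A' : Finset (Fin n)} {P Q : Finset (Finset (Fin n))}
    (hP : (P : Set (Finset (Fin n))).PairwiseDisjoint id) (hPA : P.biUnion id = symmDiff A A') (hQ : Q ⊆ P)
    (hd : Disjoint A A') : Disjoint (symmDiff A (Q.biUnion id)) (symmDiff A ((P \ Q).biUnion id)) ∧
      symmDiff A (Q.biUnion id) ∪ symmDiff A ((P \ Q).biUnion id) = A ∪ A' := by
  classical
  have h1 : ∀ j, j ∈ (P \ Q).biUnion id ↔ (j ∈ A ∨ j ∈ A') ∧ j ∉ Q.biUnion id := by
    intro j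
    have e : (j ∈ A ∨ j ∈ A') ↔ j ∈ P.biUnion id := by
      rw [hPA, mem_symmDiff]
      constructor
      · rintro (h | h)
        · exact Or.inl ⟨h, fun h' => (disjoint_left.1 hd) h h'⟩
        · exact Or.inr ⟨h, fun h' => (disjoint_left.1 hd) h' h⟩
      · rintro (h | h)
        · exact Or.inl h.1
        · exact Or.inr h.1
    rw [e]
    simp only [mem_biUnion, id, mem_sdiff]
    constructor
    · rintro ⟨b, ⟨hb1, hb2⟩, hj⟩
      refine ⟨⟨b, hb1, hj⟩, ?_⟩
      rintro ⟨b', hb', hj'⟩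
      have hne : b ≠ b' := fun h => hb2 (h ▸ hb')
      exact (disjoint_left.1 (hP hb1 (hQ hb') hne)) hj hj'
    · rintro ⟨⟨b, hb, hj⟩, h⟩
      exact ⟨b, ⟨hb, fun h' => h ⟨b, h', hj⟩⟩, hj⟩
  have h2 : ∀ j, j ∈ Q.biUnion id → j ∈ A ∨ j ∈ A' := by
    intro j hj
    have h3 : j ∈ P.biUnion id := (biUnion_subset_biUnion_of_subset_left _ hQ) hj
    rw [hPA, mem_symmDiff] at h3
    rcases h3 with h | h
    · exact Or.inl h.1
    · exact Or.inr h.1
  constructor
  · rw [disjoint_left]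
    intro j hj hj'
    rw [mem_symmDiff, h1 j] at hj'
    rw [mem_symmDiff] at hj
    tauto
  · ext j
    rw [mem_union, mem_union, mem_symmDiff, mem_symmDiff, h1 j]
    have := h2 j
    tauto

/-- **The merging step.** -/
lemma merge {n d K k : ℕ} {B : ℝ} (hB : Bd K d B) (hK : (2 * n + 1) ^ k ≤ K) {v : Fin n → Fin d → ℝ} (hv : InBall v)
    {F : Set (Finset (Fin n))} (hF : Toggle k F) {β : Type} [Fintype β] [DecidableEq β] (A A' : β → Finset (Fin n))
    (hA : ∀ b, A b ∈ F) (hA' : ∀ b, A' b ∈ F) :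
    ∃ C C' : β → Finset (Fin n), (∀ b, C b ∈ F) ∧ (∀ b, C' b ∈ F) ∧
      (∀ b, Disjoint (A b) (A' b) → Disjoint (C b) (C' b) ∧ C b ∪ C' b = A b ∪ A' b) ∧
      ∀ c, |∑ b, (2 * vs v (C b) c - vs v (A b) c - vs v (A' b) c)| ≤ k * B := by
  classical
  choose P hP1 hP2 hP3 hP4 using fun b => hF (A b) (hA b) (A' b) (hA' b)
  set S : Finset (β × Finset (Fin n)) := Finset.univ.filter (fun p => p.2 ∈ P p.1) with hS
  have hcode : ∀ p : β × Finset (Fin n), ∃ t : Fin k → Option (Fin n × Bool), p ∈ S →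
      ∀ c, uc v k t c = (∑ j ∈ p.2, sg v c (j, decide (j ∈ A p.1))) / k := by
    intro p
    by_cases hp : p ∈ S
    · rw [hS, mem_filter] at hp
      obtain ⟨t, ht⟩ := enc k p.2 (hP1 p.1 p.2 hp.2) (fun j => decide (j ∈ A p.1))
      refine ⟨t, fun _ c => ?_⟩
      unfold uc
      rw [ht (sg v c)]
    · exact ⟨fun _ => none, fun h => absurd h hp⟩
  choose τ hτ using hcode
  obtain ⟨ε, h1, h2⟩ := sign_types hB (T := Fin k → Option (Fin n × Bool)) (by
      rw [Fintype.card_fun, Fintype.card_option, Fintype.card_prod, Fintype.card_fin, Fintype.card_bool, Fintype.card_fin,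
        mul_comm]
      exact hK)
    (uc v k) (uc_ball hv k) τ S.card S le_rfl
  have hsub : ∀ b, (P b).filter (fun q => ε (b, q) = -1) ⊆ P b := fun b => filter_subset _ _
  refine ⟨fun b => symmDiff (A b) (((P b).filter (fun q => ε (b, q) = -1)).biUnion id),
    fun b => symmDiff (A b) (((P b) \ (P b).filter (fun q => ε (b, q) = -1)).biUnion id), fun b => hP4 b _ (hsub b),
    fun b => hP4 b _ sdiff_subset, fun b hb => ?_, fun c => ?_⟩
  · exact swap_pair (hP2 b) (hP3 b) (hsub b) hb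
  have key : ∀ b, 2 * vs v (symmDiff (A b) (((P b).filter (fun q => ε (b, q) = -1)).biUnion id)) c -
      vs v (A b) c - vs v (A' b) c = ∑ q ∈ P b, ε (b, q) * ∑ j ∈ q, sg v c (j, decide (j ∈ A b)) := by
    intro b
    rw [vs_toggle, sum_blocks v (A b) _ ((hP2 b).subset (by exact_mod_cast hsub b)) c]
    have h3 : vs v (A' b) c = vs v (A b) c - ∑ q ∈ P b, ∑ j ∈ q, sg v c (j, decide (j ∈ A b)) := by
      rw [← sum_blocks v (A b) _ (hP2 b) c, hP3 b, ← vs_toggle v (A b) (symmDiff (A b) (A' b)) c, symmDiff_symmDiff_cancel_left]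
    rw [h3]
    have h4 : ∑ q ∈ P b, ε (b, q) * ∑ j ∈ q, sg v c (j, decide (j ∈ A b)) =
        ∑ q ∈ P b, ∑ j ∈ q, sg v c (j, decide (j ∈ A b)) -
          2 * ∑ q ∈ (P b).filter (fun q => ε (b, q) = -1), ∑ j ∈ q, sg v c (j, decide (j ∈ A b)) := by
      rw [sum_filter, mul_sum, ← sum_sub_distrib]
      apply sum_congr rfl
      intro q _
      rcases h1 (b, q) with h | h
      · rw [h, if_neg (by norm_num)]; ring
      · rw [h, if_pos rfl]; ring
    rw [h4]
    ring
  rw [sum_congr rfl (fun b _ => key b)]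
  have h5 : ∑ b, ∑ q ∈ P b, ε (b, q) * ∑ j ∈ q, sg v c (j, decide (j ∈ A b)) =
      k * ∑ p ∈ S, ε p * uc v k (τ p) c := by
    have h6 : ∑ p ∈ S, ε p * uc v k (τ p) c = ∑ p ∈ S, ε p * ((∑ j ∈ p.2, sg v c (j, decide (j ∈ A p.1))) / k) :=
      sum_congr rfl fun p hp => by rw [hτ p hp c]
    rw [h6, hS, sum_filter, Fintype.sum_prod_type, mul_sum]
    apply sum_congr rfl
    intro b _
    rw [← sum_filter, mul_sum]
    have : (Finset.univ.filter (fun j => j ∈ P b)) = P b := by ext j; simp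
    rw [this]
    apply sum_congr rfl
    intro q hq
    rcases Nat.eq_zero_or_pos k with hk | hk
    · have hq0 := hP1 b q hq
      have hq1 : q = ∅ := by rw [← card_eq_zero]; omega
      subst hq1
      simp
    · have hk' : (k : ℝ) ≠ 0 := by positivity
      field_simp
  rw [h5, abs_mul, abs_of_nonneg (Nat.cast_nonneg k)]
  exact mul_le_mul_of_nonneg_left (h2 c) (Nat.cast_nonneg k)

/-- **Members close to averages of `2 ^ m` members.** -/
lemma average {n d K k : ℕ} {B : ℝ} (hB : Bd K d B) (hK : (2 * n + 1) ^ k ≤ K) {v : Fin n → Fin d → ℝ} (hv : InBall v)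
    {F : Set (Finset (Fin n))} (hF : Toggle k F) : ∀ (m : ℕ) (β : Type) [Fintype β] (_ : Fintype.card β = 2 ^ m)
    (A : β → Finset (Fin n)) (_ : ∀ b, A b ∈ F), ∃ C ∈ F, ∀ c, |2 ^ m * vs v C c - ∑ b, vs v (A b) c| ≤ (2 ^ m - 1) * (k * B) := by
  classical
  intro m
  induction m with
  | zero =>
    intro β _ hβ A hA
    rw [pow_zero, Fintype.card_eq_one_iff] at hβ
    obtain ⟨b, hb⟩ := hβ
    refine ⟨A b, hA b, fun c => ?_⟩
    have : (Finset.univ : Finset β) = {b} := by
      ext x; simp [hb x]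
    rw [this, sum_singleton]
    simp only [pow_zero, one_mul, sub_self, abs_zero, zero_mul]
    exact le_rfl
  | succ m ih =>
    intro β _ hβ A hA
    have e : β ≃ (Fin (2 ^ m) ⊕ Fin (2 ^ m)) := Fintype.equivOfCardEq (by
      rw [hβ, Fintype.card_sum, Fintype.card_fin]; ring)
    obtain ⟨C, -, hC, -, -, hC2⟩ := merge hB hK hv hF (fun b : Fin (2 ^ m) => A (e.symm (Sum.inl b)))
      (fun b => A (e.symm (Sum.inr b))) (fun b => hA _) (fun b => hA _)
    obtain ⟨D, hD, hD2⟩ := ih (Fin (2 ^ m)) (Fintype.card_fin _) C hC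
    refine ⟨D, hD, fun c => ?_⟩
    have h1 := hC2 c
    have h2 := hD2 c
    have h3 : ∑ b, vs v (A b) c = ∑ b : Fin (2 ^ m), vs v (A (e.symm (Sum.inl b))) c +
        ∑ b : Fin (2 ^ m), vs v (A (e.symm (Sum.inr b))) c := by
      rw [← Equiv.sum_comp e.symm, Fintype.sum_sum_type]
    have h4 : ∑ b : Fin (2 ^ m), (2 * vs v (C b) c - vs v (A (e.symm (Sum.inl b))) c - vs v (A (e.symm (Sum.inr b))) c) =
        2 * ∑ b, vs v (C b) c - ∑ b, vs v (A b) c := by
      rw [h3, sum_sub_distrib, sum_sub_distrib, ← mul_sum]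
      ring
    rw [h4] at h1
    have h5 : 2 ^ (m + 1) * vs v D c - ∑ b, vs v (A b) c =
        2 * (2 ^ m * vs v D c - ∑ b, vs v (C b) c) + (2 * ∑ b, vs v (C b) c - ∑ b, vs v (A b) c) := by ring
    rw [h5]
    refine (abs_add_le _ _).trans ?_
    rw [abs_mul, abs_two, pow_succ]
    linarith

/-- the indicator vector -/
noncomputable def ind {n : ℕ} (A : Finset (Fin n)) (j : Fin n) : ℝ := if j ∈ A then 1 else 0

lemma vs_ind {n d : ℕ} (v : Fin n → Fin d → ℝ) (A : Finset (Fin n)) (k : Fin d) :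
    vs v A k = ∑ j, ind A j * v j k := by
  unfold vs ind
  rw [← sum_filter_add_sum_filter_not univ (fun j => j ∈ A)]
  have h1 : ∑ x ∈ univ.filter (fun j => ¬ j ∈ A), (if x ∈ A then (1 : ℝ) else 0) * v x k = 0 := by
    apply sum_eq_zero
    intro x hx
    rw [mem_filter] at hx
    rw [if_neg hx.2, zero_mul]
  rw [h1, add_zero]
  have h2 : univ.filter (fun j => j ∈ A) = A := by ext; simp
  rw [h2]
  apply sum_congr rfl
  intro j hj
  rw [if_pos hj, one_mul]

lemma abs_le_one {n d : ℕ} {v : Fin n → Fin d → ℝ} (hv : InBall v) (j : Fin n) (k : Fin d) : |v j k| ≤ 1 := by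
  have h1 : v j k ^ 2 ≤ ∑ k, v j k ^ 2 := single_le_sum (f := fun k => v j k ^ 2) (fun _ _ => sq_nonneg _) (mem_univ k)
  have h2 := hv j
  rw [← sq_le_one_iff_abs_le_one]
  linarith

lemma vs_abs {n d : ℕ} {v : Fin n → Fin d → ℝ} (hv : InBall v) (A : Finset (Fin n)) (k : Fin d) : |vs v A k| ≤ n := by
  unfold vs
  refine (abs_sum_le_sum_abs _ _).trans ((sum_le_sum fun j _ => abs_le_one hv j k).trans ?_)
  rw [sum_const, nsmul_eq_mul, mul_one]
  have := card_le_univ A
  rw [Fintype.card_fin] at this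
  exact_mod_cast this

/-- dyadic multiplicities -/
lemma dyadic {α : Type} [DecidableEq α] (G : Finset α) (l : α → ℝ) (hl : ∀ a ∈ G, 0 ≤ l a) (hs : ∑ a ∈ G, l a = 1) (m : ℕ) :
    ∃ c : α → ℕ, ∑ a ∈ G, c a = 2 ^ m ∧ ∑ a ∈ G, |(c a : ℝ) - 2 ^ m * l a| ≤ 2 * G.card := by
  have hne : G.Nonempty := by
    rw [nonempty_iff_ne_empty]
    rintro rfl
    simp at hs
  obtain ⟨a₀, ha₀⟩ := hne
  have h1 : ∑ a ∈ G.erase a₀, ⌊2 ^ m * l a⌋₊ ≤ 2 ^ m := by
    have h2 : ((∑ a ∈ G.erase a₀, ⌊2 ^ m * l a⌋₊ : ℕ) : ℝ) ≤ 2 ^ m := by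
      push_cast
      calc ∑ a ∈ G.erase a₀, (⌊2 ^ m * l a⌋₊ : ℝ) ≤ ∑ a ∈ G.erase a₀, 2 ^ m * l a := by
            apply sum_le_sum
            intro a ha
            apply Nat.floor_le
            have := hl a (mem_of_mem_erase ha)
            positivity
        _ ≤ ∑ a ∈ G, 2 ^ m * l a := by
            apply sum_le_sum_of_subset_of_nonneg (erase_subset _ _)
            intro a ha _
            have := hl a ha
            positivity
        _ = 2 ^ m := by rw [← mul_sum, hs, mul_one]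
    exact_mod_cast h2
  refine ⟨fun a => if a = a₀ then 2 ^ m - ∑ a ∈ G.erase a₀, ⌊2 ^ m * l a⌋₊ else ⌊2 ^ m * l a⌋₊, ?_, ?_⟩
  · rw [← add_sum_erase G _ ha₀]
    beta_reduce
    rw [if_pos rfl]
    have : ∑ x ∈ G.erase a₀, (if x = a₀ then 2 ^ m - ∑ a ∈ G.erase a₀, ⌊2 ^ m * l a⌋₊ else ⌊2 ^ m * l x⌋₊) =
        ∑ a ∈ G.erase a₀, ⌊2 ^ m * l a⌋₊ := by
      apply sum_congr rfl
      intro x hx
      rw [if_neg (ne_of_mem_erase hx)]
    rw [this]
    omega
  · rw [← add_sum_erase G _ ha₀]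
    beta_reduce
    rw [if_pos rfl]
    have h3 : ∑ x ∈ G.erase a₀, |((if x = a₀ then 2 ^ m - ∑ a ∈ G.erase a₀, ⌊2 ^ m * l a⌋₊ else ⌊2 ^ m * l x⌋₊ : ℕ) : ℝ) - 2 ^ m * l x| ≤
        G.card := by
      calc _ ≤ ∑ x ∈ G.erase a₀, (1 : ℝ) := by
            apply sum_le_sum
            intro x hx
            rw [if_neg (ne_of_mem_erase hx)]
            have h4 : 0 ≤ 2 ^ m * l x := by
              have := hl x (mem_of_mem_erase hx)
              positivity
            have h5 := Nat.floor_le h4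
            have h6 := Nat.lt_floor_add_one (2 ^ m * l x)
            rw [abs_le]
            constructor <;> linarith
        _ = ((G.erase a₀).card : ℝ) := by rw [sum_const, nsmul_eq_mul, mul_one]
        _ ≤ G.card := by exact_mod_cast card_le_card (erase_subset _ _)
    have h4 : |((2 ^ m - ∑ a ∈ G.erase a₀, ⌊2 ^ m * l a⌋₊ : ℕ) : ℝ) - 2 ^ m * l a₀| ≤ G.card := by
      rw [Nat.cast_sub h1]
      push_cast
      have h5 : (2 : ℝ) ^ m * l a₀ = 2 ^ m - ∑ a ∈ G.erase a₀, 2 ^ m * l a := by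
        have : ∑ a ∈ G, 2 ^ m * l a = (2 : ℝ) ^ m := by rw [← mul_sum, hs, mul_one]
        rw [← add_sum_erase G _ ha₀] at this
        linarith
      rw [h5]
      have h6 : (2 : ℝ) ^ m - ∑ a ∈ G.erase a₀, (⌊2 ^ m * l a⌋₊ : ℝ) - (2 ^ m - ∑ a ∈ G.erase a₀, 2 ^ m * l a) =
          ∑ a ∈ G.erase a₀, (2 ^ m * l a - (⌊2 ^ m * l a⌋₊ : ℝ)) := by
        rw [sum_sub_distrib]; ring
      rw [h6]
      refine (abs_sum_le_sum_abs _ _).trans ?_
      calc _ ≤ ∑ x ∈ G.erase a₀, (1 : ℝ) := by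
            apply sum_le_sum
            intro x hx
            have h4 : 0 ≤ 2 ^ m * l x := by
              have := hl x (mem_of_mem_erase hx)
              positivity
            have h5 := Nat.floor_le h4
            have h6 := Nat.lt_floor_add_one (2 ^ m * l x)
            rw [abs_le]
            constructor <;> linarith
        _ = ((G.erase a₀).card : ℝ) := by rw [sum_const, nsmul_eq_mul, mul_one]
        _ ≤ G.card := by exact_mod_cast card_le_card (erase_subset _ _)
    linarith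

/-- some member of `F` has a sum of vectors within `R` of the fractional sum -/
def Has0 {n d : ℕ} (v : Fin n → Fin d → ℝ) (F : Set (Finset (Fin n))) (x : Fin n → ℝ) (R : ℝ) : Prop :=
  ∃ A ∈ F, ∀ c, |∑ j ∈ A, v j c - ∑ j, x j * v j c| ≤ R

lemma ind_inj {n : ℕ} : Function.Injective (ind : Finset (Fin n) → Fin n → ℝ) := by
  intro A A' h
  ext j
  have := congrFun h j
  unfold ind at this
  by_cases h1 : j ∈ A <;> by_cases h2 : j ∈ A'
  · exact ⟨fun _ => h2, fun _ => h1⟩
  · rw [if_pos h1, if_neg h2] at this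
    norm_num at this
  · rw [if_neg h1, if_pos h2] at this
    norm_num at this
  · exact ⟨fun h => absurd h h1, fun h => absurd h h2⟩

/-- weights of the members -/
lemma weights {n : ℕ} {F : Set (Finset (Fin n))} {x : Fin n → ℝ} (hx : x ∈ convexHull ℝ (ind '' F)) :
    ∃ l : Finset (Fin n) → ℝ, (∀ A ∈ F.toFinite.toFinset, 0 ≤ l A) ∧
      ∑ A ∈ F.toFinite.toFinset, l A = 1 ∧ ∀ j, ∑ A ∈ F.toFinite.toFinset, l A * ind A j = x j := by
  classical
  have h1 : ind '' F = ↑(F.toFinite.toFinset.image ind) := by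
    rw [coe_image, Set.Finite.coe_toFinset]
  rw [h1, Finset.mem_convexHull'] at hx
  obtain ⟨w, hw0, hw1, hw2⟩ := hx
  refine ⟨fun A => w (ind A), fun A hA => hw0 _ (mem_image_of_mem _ hA), ?_, fun j => ?_⟩
  · rw [sum_image ind_inj.injOn] at hw1
    exact hw1
  · rw [sum_image ind_inj.injOn] at hw2
    have := congrFun hw2 j
    rw [Finset.sum_apply] at this
    simpa using this

theorem transfer0 {n d K k : ℕ} {B : ℝ} (hB : Bd K d B) (hK : (2 * n + 1) ^ k ≤ K) {v : Fin n → Fin d → ℝ} (hv : InBall v)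
    {F : Set (Finset (Fin n))} (hF : Toggle k F) (x : Fin n → ℝ) (hx : x ∈ convexHull ℝ (ind '' F)) : Has0 v F x (k * B) := by
  classical
  obtain ⟨l, hl0, hl1, hl2⟩ := weights hx
  set G := F.toFinite.toFinset with hG
  have hGF : ∀ A, A ∈ G ↔ A ∈ F := fun A => by rw [hG, Set.Finite.mem_toFinset]
  have hxv : ∀ c, ∑ j, x j * v j c = ∑ A ∈ G, l A * vs v A c := by
    intro c
    simp_rw [vs_ind, ← hl2, sum_mul, mul_sum]
    rw [sum_comm]
    apply sum_congr rfl
    intro A _
    apply sum_congr rfl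
    intro j _
    ring
  -- approximations
  have happ : ∀ η : ℝ, 0 < η → Has0 v F x (k * B + η) := by
    intro η hη
    obtain ⟨m, hm⟩ := exists_nat_gt (2 * G.card * n / η)
    obtain ⟨c, hc1, hc2⟩ := dyadic G l hl0 hl1 m
    obtain ⟨C, hC, hC2⟩ := average hB hK hv hF m ((A : G) × Fin (c A)) (by
      rw [Fintype.card_sigma]
      simp only [Fintype.card_fin]
      rw [Finset.sum_coe_sort G (fun A => c A)]
      exact hc1) (fun b => b.1.1) (fun b => (hGF _).1 b.1.2)
    refine ⟨C, hC, fun κ => ?_⟩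
    have h1 := hC2 κ
    rw [Fintype.sum_sigma] at h1
    simp only [sum_const, card_univ, Fintype.card_fin, nsmul_eq_mul] at h1
    rw [Finset.sum_coe_sort G (fun A => (c A : ℝ) * vs v A κ)] at h1
    have hpow : (m : ℝ) < 2 ^ m := by exact_mod_cast m.lt_two_pow_self
    have h2m : (0 : ℝ) < 2 ^ m := by positivity
    have h2 : |∑ A ∈ G, (c A : ℝ) * vs v A κ - 2 ^ m * ∑ A ∈ G, l A * vs v A κ| ≤ 2 * G.card * n := by
      have e : ∑ A ∈ G, (c A : ℝ) * vs v A κ - 2 ^ m * ∑ A ∈ G, l A * vs v A κ =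
          ∑ A ∈ G, ((c A : ℝ) - 2 ^ m * l A) * vs v A κ := by
        rw [mul_sum, ← sum_sub_distrib]
        apply sum_congr rfl
        intro A _
        ring
      rw [e]
      calc _ ≤ ∑ A ∈ G, |((c A : ℝ) - 2 ^ m * l A) * vs v A κ| := abs_sum_le_sum_abs _ _
        _ ≤ ∑ A ∈ G, |(c A : ℝ) - 2 ^ m * l A| * n := by
            apply sum_le_sum
            intro A _
            rw [abs_mul]
            exact mul_le_mul_of_nonneg_left (vs_abs hv A κ) (abs_nonneg _)
        _ = (∑ A ∈ G, |(c A : ℝ) - 2 ^ m * l A|) * n := by rw [sum_mul]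
        _ ≤ 2 * G.card * n := mul_le_mul_of_nonneg_right hc2 (Nat.cast_nonneg _)
    have h3 : 2 * (G.card : ℝ) * n ≤ 2 ^ m * η := by
      rw [div_lt_iff₀ hη] at hm
      have : (m : ℝ) * η ≤ 2 ^ m * η := mul_le_mul_of_nonneg_right hpow.le hη.le
      linarith
    rw [hxv κ]
    change |vs v C κ - ∑ A ∈ G, l A * vs v A κ| ≤ k * B + η
    have h4 : |2 ^ m * (vs v C κ - ∑ A ∈ G, l A * vs v A κ)| ≤ 2 ^ m * (k * B + η) := by
      have e : 2 ^ m * (vs v C κ - ∑ A ∈ G, l A * vs v A κ) = (2 ^ m * vs v C κ - ∑ A ∈ G, (c A : ℝ) * vs v A κ) +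
          (∑ A ∈ G, (c A : ℝ) * vs v A κ - 2 ^ m * ∑ A ∈ G, l A * vs v A κ) := by ring
      rw [e]
      refine (abs_add_le _ _).trans ?_
      have hB0 : 0 ≤ k * B := by
        obtain ⟨ε, _, h⟩ := hB 0 (Nat.zero_le _) (fun i => i.elim0) (fun i => i.elim0)
        have := h κ
        simp only [univ_eq_empty, sum_empty, abs_zero] at this
        positivity
      have : (2 ^ m - 1) * (k * B) ≤ 2 ^ m * (k * B) := mul_le_mul_of_nonneg_right (by linarith) hB0
      linarith
    rw [abs_mul, abs_of_pos h2m] at h4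
    exact le_of_mul_le_mul_left h4 h2m
  -- finitely many members
  by_contra hcon
  unfold Has0 at hcon
  push Not at hcon
  obtain ⟨A1, hA1, _⟩ := happ 1 one_pos
  obtain ⟨k0, _⟩ := hcon A1 hA1
  have : Nonempty (Fin d) := ⟨k0⟩
  choose! κ hκ using hcon
  have hne : G.Nonempty := ⟨A1, (hGF A1).2 hA1⟩
  obtain ⟨A₀, hA₀, hmin⟩ := exists_min_image G (fun A => |∑ j ∈ A, v j (κ A) - ∑ j, x j * v j (κ A)|) hne
  have hlt := hκ A₀ ((hGF A₀).1 hA₀)
  obtain ⟨A, hA, hA2⟩ := happ ((|∑ j ∈ A₀, v j (κ A₀) - ∑ j, x j * v j (κ A₀)| - k * B) / 2) (by linarith)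
  have h1 := hmin A ((hGF A).2 hA)
  have h2 := hA2 (κ A)
  have h3 := hκ A hA
  linarith

/-- the members which agree with `x` where `x` is `0` or `1` -/
def restr {n : ℕ} (F : Set (Finset (Fin n))) (x : Fin n → ℝ) : Set (Finset (Fin n)) :=
  {A | A ∈ F ∧ ∀ j, (x j = 1 → j ∈ A) ∧ (x j = 0 → j ∉ A)}

lemma toggle_restr {n k : ℕ} {F : Set (Finset (Fin n))} (hF : Toggle k F) (x : Fin n → ℝ) : Toggle k (restr F x) := by
  classical
  intro A hA A' hA'
  obtain ⟨P, h1, h2, h3, h4⟩ := hF A hA.1 A' hA'.1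
  refine ⟨P, h1, h2, h3, fun Q hQ => ⟨h4 Q hQ, fun j => ?_⟩⟩
  have hsub : Q.biUnion id ⊆ symmDiff A A' := by
    rw [← h3]
    exact biUnion_subset_biUnion_of_subset_left _ hQ
  have hmem : j ∈ Q.biUnion id → (j ∈ A ∧ j ∉ A') ∨ (j ∈ A' ∧ j ∉ A) := by
    intro h
    have := hsub h
    rw [mem_symmDiff] at this
    exact this
  obtain ⟨a1, a2⟩ := hA.2 j
  obtain ⟨b1, b2⟩ := hA'.2 j
  rw [mem_symmDiff]
  constructor
  · intro hx
    left
    exact ⟨a1 hx, fun h => by rcases hmem h with h' | h'; exacts [h'.2 (b1 hx), h'.2 (a1 hx)]⟩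
  · intro hx h
    rcases h with h | h
    · exact a2 hx h.1
    · rcases hmem h.1 with h' | h'
      · exact a2 hx h'.1
      · exact b2 hx h'.1

lemma hull_restr {n : ℕ} {F : Set (Finset (Fin n))} {x : Fin n → ℝ} (hx : x ∈ convexHull ℝ (ind '' F)) :
    x ∈ convexHull ℝ (ind '' (restr F x)) := by
  classical
  obtain ⟨l, hl0, hl1, hl2⟩ := weights hx
  set G := F.toFinite.toFinset with hG
  have hGF : ∀ A, A ∈ G ↔ A ∈ F := fun A => by rw [hG, Set.Finite.mem_toFinset]
  set G' := G.filter (fun A => l A ≠ 0) with hG'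
  have e1 : ∑ A ∈ G', l A = 1 := by
    rw [← hl1, hG', sum_filter_ne_zero]
  have e2 : ∑ A ∈ G', l A • ind A = x := by
    funext j
    rw [Finset.sum_apply, ← hl2 j]
    simp only [Pi.smul_apply, smul_eq_mul]
    apply sum_subset (filter_subset _ _)
    intro A hA hA2
    have hA3 : l A = 0 := by
      by_contra h
      exact hA2 (mem_filter.2 ⟨hA, h⟩)
    rw [hA3, zero_mul]
  rw [← e2]
  apply (convex_convexHull ℝ (ind '' (restr F (∑ A ∈ G', l A • ind A)))).sum_mem
  · intro A hA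
    exact hl0 A (mem_filter.1 hA).1
  · exact e1
  · intro A hA
    apply subset_convexHull
    refine ⟨A, ⟨(hGF A).1 (mem_filter.1 hA).1, fun j => ?_⟩, rfl⟩
    rw [e2]
    have hAG := (mem_filter.1 hA).1
    have hlA : 0 < l A := lt_of_le_of_ne (hl0 A hAG) (mem_filter.1 hA).2.symm
    constructor
    · intro hxj
      by_contra hj
      have h1 : ∑ A ∈ G, l A * (1 - ind A j) = 0 := by
        have : ∑ A ∈ G, l A * (1 - ind A j) = ∑ A ∈ G, l A - ∑ A ∈ G, l A * ind A j := by
          rw [← sum_sub_distrib]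
          apply sum_congr rfl
          intro A _
          ring
        rw [this, hl1, hl2, hxj, sub_self]
      have h2 : ∀ A ∈ G, 0 ≤ l A * (1 - ind A j) := by
        intro A hA
        apply mul_nonneg (hl0 A hA)
        unfold ind
        split_ifs <;> norm_num
      have h3 := (sum_eq_zero_iff_of_nonneg h2).1 h1 A hAG
      unfold ind at h3
      rw [if_neg hj, sub_zero, mul_one] at h3
      exact hlA.ne' h3
    · intro hxj hj
      have h1 : ∑ A ∈ G, l A * ind A j = 0 := by rw [hl2, hxj]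
      have h2 : ∀ A ∈ G, 0 ≤ l A * ind A j := by
        intro A hA
        apply mul_nonneg (hl0 A hA)
        unfold ind
        split_ifs <;> norm_num
      have h3 := (sum_eq_zero_iff_of_nonneg h2).1 h1 A hAG
      unfold ind at h3
      rw [if_pos hj, mul_one] at h3
      exact hlA.ne' h3

/-- some member of `F` agrees with `x` where `x` is `0` or `1`, and has a sum of vectors within `R` of the fractional sum -/
def Has {n d : ℕ} (v : Fin n → Fin d → ℝ) (F : Set (Finset (Fin n))) (x : Fin n → ℝ) (R : ℝ) : Prop :=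
  ∃ A ∈ F, (∀ j, (x j = 1 → j ∈ A) ∧ (x j = 0 → j ∉ A)) ∧ ∀ c, |∑ j ∈ A, v j c - ∑ j, x j * v j c| ≤ R

/-- **Transfer.** -/
theorem transfer {n d K k : ℕ} {B : ℝ} (hB : Bd K d B) (hK : (2 * n + 1) ^ k ≤ K) {v : Fin n → Fin d → ℝ} (hv : InBall v)
    {F : Set (Finset (Fin n))} (hF : Toggle k F) (x : Fin n → ℝ) (hx : x ∈ convexHull ℝ (ind '' F)) : Has v F x (k * B) := by
  obtain ⟨A, hA, h⟩ := transfer0 hB hK hv (toggle_restr hF x) x (hull_restr hx)
  exact ⟨A, hA.1, hA.2, h⟩

/-- **Splitting into `2 ^ m` members.** -/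
theorem split {n d K k : ℕ} {B : ℝ} (hB : Bd K d B) (hK : (2 * n + 1) ^ k ≤ K) {v : Fin n → Fin d → ℝ} (hv : InBall v)
    {F : Set (Finset (Fin n))} (hF : Toggle k F) : ∀ (m : ℕ) (β : Type) [Fintype β] (_ : Fintype.card β = 2 ^ m)
    (A : β → Finset (Fin n)) (_ : ∀ b, A b ∈ F) (_ : ∀ b b', b ≠ b' → Disjoint (A b) (A b')),
    ∃ C : β → Finset (Fin n), (∀ b, C b ∈ F) ∧ (∀ b b', b ≠ b' → Disjoint (C b) (C b')) ∧
      (∀ j, (∃ b, j ∈ C b) ↔ ∃ b, j ∈ A b) ∧
      ∀ b c, |2 ^ m * vs v (C b) c - ∑ b, vs v (A b) c| ≤ (2 ^ m - 1) * (k * B) := by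
  classical
  intro m
  induction m with
  | zero =>
    intro β _ hβ A hA hd
    rw [pow_zero, Fintype.card_eq_one_iff] at hβ
    obtain ⟨b, hb⟩ := hβ
    refine ⟨A, hA, hd, fun j => Iff.rfl, fun b' c => ?_⟩
    have : (Finset.univ : Finset β) = {b} := by
      ext x; simp [hb x]
    rw [this, sum_singleton, hb b']
    simp only [pow_zero, one_mul, sub_self, abs_zero, zero_mul]
    exact le_rfl
  | succ m ih =>
    intro β _ hβ A hA hd
    have e : β ≃ (Fin (2 ^ m) ⊕ Fin (2 ^ m)) := Fintype.equivOfCardEq (by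
      rw [hβ, Fintype.card_sum, Fintype.card_fin]; ring)
    obtain ⟨C, C', hC, hC', hCC, hC2⟩ := merge hB hK hv hF (fun b : Fin (2 ^ m) => A (e.symm (Sum.inl b)))
      (fun b => A (e.symm (Sum.inr b))) (fun b => hA _) (fun b => hA _)
    have hdis : ∀ b b' : Fin (2 ^ m), Disjoint (A (e.symm (Sum.inl b))) (A (e.symm (Sum.inr b'))) := by
      intro b b'
      apply hd
      intro h
      have := e.symm.injective h
      simp at this
    have hl : ∀ b b' : Fin (2 ^ m), b ≠ b' → Disjoint (A (e.symm (Sum.inl b))) (A (e.symm (Sum.inl b'))) := by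
      intro b b' hne
      apply hd
      intro h
      have := e.symm.injective h
      simp at this
      exact hne this
    have hr : ∀ b b' : Fin (2 ^ m), b ≠ b' → Disjoint (A (e.symm (Sum.inr b))) (A (e.symm (Sum.inr b'))) := by
      intro b b' hne
      apply hd
      intro h
      have := e.symm.injective h
      simp at this
      exact hne this
    have hun : ∀ b j, (j ∈ C b ∨ j ∈ C' b) ↔ (j ∈ A (e.symm (Sum.inl b)) ∨ j ∈ A (e.symm (Sum.inr b))) := by
      intro b j
      have := (hCC b (hdis b b)).2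
      rw [← mem_union, this, mem_union]
    have hbig : ∀ b b' : Fin (2 ^ m), b ≠ b' → ∀ j, (j ∈ C b ∨ j ∈ C' b) → (j ∈ C b' ∨ j ∈ C' b') → False := by
      intro b b' hne j h1 h2
      rw [hun] at h1 h2
      rcases h1 with h1 | h1 <;> rcases h2 with h2 | h2
      · exact (disjoint_left.1 (hl b b' hne)) h1 h2
      · exact (disjoint_left.1 (hdis b b')) h1 h2
      · exact (disjoint_left.1 (hdis b' b)) h2 h1
      · exact (disjoint_left.1 (hr b b' hne)) h1 h2
    have hCd : ∀ b b' : Fin (2 ^ m), b ≠ b' → Disjoint (C b) (C b') := by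
      intro b b' hne
      rw [disjoint_left]
      exact fun j h1 h2 => hbig b b' hne j (Or.inl h1) (Or.inl h2)
    have hCd' : ∀ b b' : Fin (2 ^ m), b ≠ b' → Disjoint (C' b) (C' b') := by
      intro b b' hne
      rw [disjoint_left]
      exact fun j h1 h2 => hbig b b' hne j (Or.inr h1) (Or.inr h2)
    have hCx : ∀ b b' : Fin (2 ^ m), Disjoint (C b) (C' b') := by
      intro b b'
      rw [disjoint_left]
      intro j h1 h2
      by_cases h : b = b'
      · subst h
        exact (disjoint_left.1 (hCC b (hdis b b)).1) h1 h2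
      · exact hbig b b' h j (Or.inl h1) (Or.inr h2)
    obtain ⟨D, hD, hDd, hDu, hD2⟩ := ih (Fin (2 ^ m)) (Fintype.card_fin _) C hC hCd
    obtain ⟨D', hD', hDd', hDu', hD2'⟩ := ih (Fin (2 ^ m)) (Fintype.card_fin _) C' hC' hCd'
    have h3 : ∀ c, ∑ b, vs v (A b) c = ∑ b : Fin (2 ^ m), vs v (A (e.symm (Sum.inl b))) c +
        ∑ b : Fin (2 ^ m), vs v (A (e.symm (Sum.inr b))) c := by
      intro c
      rw [← Equiv.sum_comp e.symm, Fintype.sum_sum_type]
    have h4 : ∀ c, ∑ b : Fin (2 ^ m), (2 * vs v (C b) c - vs v (A (e.symm (Sum.inl b))) c - vs v (A (e.symm (Sum.inr b))) c) =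
        2 * ∑ b, vs v (C b) c - ∑ b, vs v (A b) c := by
      intro c
      rw [h3, sum_sub_distrib, sum_sub_distrib, ← mul_sum]
      ring
    have h6 : ∀ c, ∑ b, vs v (C b) c + ∑ b, vs v (C' b) c = ∑ b, vs v (A b) c := by
      intro c
      rw [h3, ← sum_add_distrib, ← sum_add_distrib]
      apply sum_congr rfl
      intro b _
      unfold vs
      rw [← sum_union (hCC b (hdis b b)).1, ← sum_union (hdis b b), (hCC b (hdis b b)).2]
    refine ⟨fun b => Sum.elim D D' (e b), fun b => ?_, fun b b' hne => ?_, fun j => ?_, fun b c => ?_⟩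
    · beta_reduce
      rcases e b with x | x
      · exact hD x
      · exact hD' x
    · have hne' : e b ≠ e b' := fun h => hne (e.injective h)
      beta_reduce
      rcases hb : e b with x | x <;> rcases hb' : e b' with y | y
      · rw [hb, hb'] at hne'
        exact hDd x y (fun h => hne' (by rw [h]))
      · simp only [Sum.elim_inl, Sum.elim_inr]
        rw [disjoint_left]
        intro j h1 h2
        obtain ⟨z, hz⟩ := (hDu j).1 ⟨x, h1⟩
        obtain ⟨z', hz'⟩ := (hDu' j).1 ⟨y, h2⟩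
        exact (disjoint_left.1 (hCx z z')) hz hz'
      · simp only [Sum.elim_inl, Sum.elim_inr]
        rw [disjoint_left]
        intro j h1 h2
        obtain ⟨z, hz⟩ := (hDu' j).1 ⟨x, h1⟩
        obtain ⟨z', hz'⟩ := (hDu j).1 ⟨y, h2⟩
        exact (disjoint_left.1 (hCx z' z)) hz' hz
      · rw [hb, hb'] at hne'
        exact hDd' x y (fun h => hne' (by rw [h]))
    · constructor
      · rintro ⟨b, hb⟩
        have h7 : (∃ z, j ∈ C z) ∨ ∃ z, j ∈ C' z := by
          revert hb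
          beta_reduce
          rcases e b with x | x
          · exact fun hb => Or.inl ((hDu j).1 ⟨x, hb⟩)
          · exact fun hb => Or.inr ((hDu' j).1 ⟨x, hb⟩)
        have h8 : ∃ z, j ∈ C z ∨ j ∈ C' z := by
          rcases h7 with ⟨z, hz⟩ | ⟨z, hz⟩
          · exact ⟨z, Or.inl hz⟩
          · exact ⟨z, Or.inr hz⟩
        obtain ⟨z, hz⟩ := h8
        rw [hun] at hz
        rcases hz with hz | hz
        · exact ⟨_, hz⟩
        · exact ⟨_, hz⟩
      · rintro ⟨b, hb⟩
        have h8 : ∃ z, j ∈ C z ∨ j ∈ C' z := by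
          rcases hx : e b with x | x
          · exact ⟨x, (hun x j).2 (Or.inl (by rw [← hx, e.symm_apply_apply]; exact hb))⟩
          · exact ⟨x, (hun x j).2 (Or.inr (by rw [← hx, e.symm_apply_apply]; exact hb))⟩
        obtain ⟨z, hz | hz⟩ := h8
        · obtain ⟨y, hy⟩ := (hDu j).2 ⟨z, hz⟩
          exact ⟨e.symm (Sum.inl y), by simpa using hy⟩
        · obtain ⟨y, hy⟩ := (hDu' j).2 ⟨z, hz⟩
          exact ⟨e.symm (Sum.inr y), by simpa using hy⟩
    · have h1 := hC2 c
      rw [h4] at h1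
      have h7 := h6 c
      beta_reduce
      rw [pow_succ]
      rcases e b with x | x
      · have h2 := hD2 x c
        simp only [Sum.elim_inl]
        have h5 : 2 ^ m * 2 * vs v (D x) c - ∑ b, vs v (A b) c =
            2 * (2 ^ m * vs v (D x) c - ∑ b, vs v (C b) c) + (2 * ∑ b, vs v (C b) c - ∑ b, vs v (A b) c) := by ring
        rw [h5]
        refine (abs_add_le _ _).trans ?_
        rw [abs_mul, abs_two]
        linarith
      · have h2 := hD2' x c
        simp only [Sum.elim_inr]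
        have h5 : 2 ^ m * 2 * vs v (D' x) c - ∑ b, vs v (A b) c =
            2 * (2 ^ m * vs v (D' x) c - ∑ b, vs v (C' b) c) + -(2 * ∑ b, vs v (C b) c - ∑ b, vs v (A b) c) := by
          linear_combination 2 * h7
        rw [h5]
        refine (abs_add_le _ _).trans ?_
        rw [abs_mul, abs_two, abs_neg]
        linarith

end Pool.Agent.K1H93.KB
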