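import Pool.Agent.K1H93.KB.Core

/-! Examples: bases of strongly base orderable matroids, vertex sets covered by matchings. -/

set_option autoImplicit false

namespace Pool.Agent.K1H93.KB

open Finset

/-- A matroid is strongly base orderable if for all bases `A`, `A'` there is a bijection `f` of `A \ A'` onto `A' \ A` such
that `A` remains a base if any subset `X` of `A \ A'` is replaced by `f X`. -/
def StronglyBaseOrderable {n : ℕ} (M : Matroid (Fin n)) : Prop :=
  ∀ A A' : Set (Fin n), M.IsBase A → M.IsBase A' → ∃ f : Fin n → Fin n, Set.BijOn f (A \ A') (A' \ A) ∧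
    ∀ X ⊆ A \ A', M.IsBase ((A \ X) ∪ f '' X)

/-- the bases of a matroid -/
def bases {n : ℕ} (M : Matroid (Fin n)) : Set (Finset (Fin n)) := {A | M.IsBase ↑A}

lemma toggle_sbo {n : ℕ} {M : Matroid (Fin n)} (hM : StronglyBaseOrderable M) : Toggle 2 (bases M) := by
  classical
  intro A hA A' hA'
  obtain ⟨f, hf, hX⟩ := hM ↑A ↑A' hA hA'
  have hfm : ∀ a ∈ A \ A', f a ∈ A' \ A := by
    intro a ha
    have h1 : f a ∈ ((A' : Set (Fin n)) \ ↑A) := hf.mapsTo (by
      rw [mem_sdiff] at ha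
      exact ⟨by exact_mod_cast ha.1, by exact_mod_cast ha.2⟩)
    rw [mem_sdiff]
    exact ⟨by exact_mod_cast h1.1, by exact_mod_cast h1.2⟩
  have hfi : ∀ a ∈ A \ A', ∀ b ∈ A \ A', f a = f b → a = b := by
    intro a ha b hb h
    rw [mem_sdiff] at ha hb
    exact hf.injOn ⟨by exact_mod_cast ha.1, by exact_mod_cast ha.2⟩ ⟨by exact_mod_cast hb.1, by exact_mod_cast hb.2⟩ h
  have hfs : ∀ b ∈ A' \ A, ∃ a ∈ A \ A', f a = b := by
    intro b hb
    rw [mem_sdiff] at hb
    obtain ⟨a, ha, hab⟩ := hf.surjOn (⟨by exact_mod_cast hb.1, by exact_mod_cast hb.2⟩ : b ∈ ((A' : Set (Fin n)) \ ↑A))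
    exact ⟨a, by rw [mem_sdiff]; exact ⟨by exact_mod_cast ha.1, by exact_mod_cast ha.2⟩, hab⟩
  refine ⟨(A \ A').image (fun a => {a, f a}), ?_, ?_, ?_, ?_⟩
  · intro b hb
    rw [mem_image] at hb
    obtain ⟨a, _, rfl⟩ := hb
    exact card_le_two
  · intro b hb c hc hbc
    rw [mem_coe, mem_image] at hb hc
    obtain ⟨a, ha, rfl⟩ := hb
    obtain ⟨a', ha', rfl⟩ := hc
    have hne : a ≠ a' := fun h => hbc (by rw [h])
    have h1 := mem_sdiff.1 (hfm a ha)
    have h1' := mem_sdiff.1 (hfm a' ha')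
    have h2 := mem_sdiff.1 ha
    have h2' := mem_sdiff.1 ha'
    have h3 : f a ≠ f a' := fun h => hne (hfi a ha a' ha' h)
    change Disjoint ({a, f a} : Finset (Fin n)) {a', f a'}
    rw [disjoint_left]
    intro j hj hj'
    rw [mem_insert, mem_singleton] at hj hj'
    rcases hj with rfl | rfl <;> rcases hj' with h | h
    · exact hne h
    · exact h1'.2 (h ▸ h2.1)
    · exact h1.2 (h ▸ h2'.1)
    · exact h3 h
  · ext j
    rw [mem_biUnion, mem_symmDiff]
    constructor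
    · rintro ⟨b, hb, hj⟩
      rw [mem_image] at hb
      obtain ⟨a, ha, rfl⟩ := hb
      rw [id, mem_insert, mem_singleton] at hj
      rcases hj with rfl | rfl
      · exact Or.inl (mem_sdiff.1 ha)
      · exact Or.inr (mem_sdiff.1 (hfm a ha))
    · rintro (h | h)
      · exact ⟨{j, f j}, mem_image.2 ⟨j, mem_sdiff.2 h, rfl⟩, by simp⟩
      · obtain ⟨a, ha, rfl⟩ := hfs j (mem_sdiff.2 h)
        exact ⟨{a, f a}, mem_image.2 ⟨a, ha, rfl⟩, by simp⟩
  · intro Q hQ
    set X : Finset (Fin n) := (A \ A').filter (fun a => ({a, f a} : Finset (Fin n)) ∈ Q) with hXdef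
    have hXs : X ⊆ A \ A' := filter_subset _ _
    have hQm : ∀ j, j ∈ Q.biUnion id ↔ j ∈ X ∨ ∃ a ∈ X, f a = j := by
      intro j
      rw [mem_biUnion]
      constructor
      · rintro ⟨b, hb, hj⟩
        obtain ⟨a, ha, hab⟩ := mem_image.1 (hQ hb)
        have haX : a ∈ X := mem_filter.2 ⟨ha, by rw [hab]; exact hb⟩
        rw [id, ← hab, mem_insert, mem_singleton] at hj
        rcases hj with rfl | rfl
        · exact Or.inl haX
        · exact Or.inr ⟨a, haX, rfl⟩
      · rintro (h | ⟨a, ha, rfl⟩)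
        · exact ⟨_, (mem_filter.1 h).2, by simp⟩
        · exact ⟨_, (mem_filter.1 ha).2, by simp⟩
    have h1 := hX ↑X (by
      intro a ha
      have := mem_sdiff.1 (hXs (by exact_mod_cast ha))
      exact ⟨by exact_mod_cast this.1, by exact_mod_cast this.2⟩)
    change M.IsBase _
    convert h1 using 1
    ext j
    rw [mem_coe, mem_symmDiff, hQm]
    simp only [Set.mem_union, Set.mem_sdiff, mem_coe, Set.mem_image]
    constructor
    · rintro (⟨h2, h3⟩ | ⟨h2, h3⟩)
      · push Not at h3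
        exact Or.inl ⟨h2, h3.1⟩
      · rcases h2 with h2 | ⟨a, ha, rfl⟩
        · exact absurd (mem_sdiff.1 (hXs h2)).1 h3
        · exact Or.inr ⟨a, ha, rfl⟩
    · rintro (⟨h2, h3⟩ | ⟨a, ha, rfl⟩)
      · left
        refine ⟨h2, ?_⟩
        rintro (h4 | ⟨a, ha, rfl⟩)
        · exact h3 h4
        · exact (mem_sdiff.1 (hfm a (hXs ha))).2 h2
      · right
        exact ⟨Or.inr ⟨a, ha, rfl⟩, (mem_sdiff.1 (hfm a (hXs ha))).2⟩

/-! ### matchings -/

/-- the sequence `v, m v, m' m v, m m' m v, …` -/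
def sq {n : ℕ} (m m' : Fin n → Fin n) (v : Fin n) : ℕ → Fin n
  | 0 => v
  | i + 1 => if i % 2 = 0 then m (sq m m' v i) else m' (sq m m' v i)

/-- the vertex sets covered by the matchings of a graph: a matching is given by the involution `m` which exchanges the
ends of its edges -/
def covered {n : ℕ} (G : SimpleGraph (Fin n)) : Set (Finset (Fin n)) :=
  {A | ∃ m : Fin n → Fin n, (∀ j, m (m j) = j) ∧ (∀ j, m j ≠ j → G.Adj j (m j)) ∧ ∀ j, j ∈ A ↔ m j ≠ j}

lemma walk_two {n : ℕ} (m m' : Fin n → Fin n) (hm : ∀ j, m (m j) = j) (hm' : ∀ j, m' (m' j) = j) (v : Fin n)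
    (hv : m' v = v) (U : Set (Fin n)) (hU : ∀ W : Set (Fin n), v ∈ W → (∀ j ∈ W, m j ∈ W) → (∀ j ∈ W, m' j ∈ W) → U ⊆ W) :
    ∃ w, ∀ j ∈ U, (m j ≠ j ∧ m' j ≠ j) ∨ j = v ∨ j = w := by
  have hs : ∀ i, sq m m' v (i + 1) = if i % 2 = 0 then m (sq m m' v i) else m' (sq m m' v i) := fun i => rfl
  have h0 : sq m m' v 0 = v := rfl
  -- the two neighbours
  have hnb : ∀ i, (i % 2 = 0 → m (sq m m' v i) = sq m m' v (i + 1)) ∧ (i % 2 = 1 → m' (sq m m' v i) = sq m m' v (i + 1)) := by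
    intro i
    constructor
    · intro h; rw [hs, if_pos h]
    · intro h; rw [hs, if_neg (by omega)]
  have hnb2 : ∀ i, (i % 2 = 0 → m' (sq m m' v (i + 1 + 1)) = sq m m' v (i + 1)) ∧
      (i % 2 = 0 → m (sq m m' v (i + 1)) = sq m m' v i) := by
    intro i
    constructor
    · intro h; rw [hs (i + 1), if_neg (by omega), hm']
    · intro h; rw [hs i, if_pos h, hm]
  by_cases hstop : ∃ i, sq m m' v (i + 1) = sq m m' v i
  · classical
    set N := Nat.find hstop with hN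
    have hN1 : sq m m' v (N + 1) = sq m m' v N := Nat.find_spec hstop
    have hN2 : ∀ i < N, sq m m' v (i + 1) ≠ sq m m' v i := fun i hi => Nat.find_min hstop hi
    have hsub := hU {j | ∃ i ≤ N, sq m m' v i = j} ⟨0, Nat.zero_le _, h0⟩ (by
      rintro j ⟨i, hi, rfl⟩
      rcases Nat.mod_two_eq_zero_or_one i with h | h
      · rw [(hnb i).1 h]
        rcases Nat.lt_or_ge i N with h1 | h1
        · exact ⟨i + 1, h1, rfl⟩
        · have : i = N := le_antisymm hi h1
          subst this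
          exact ⟨_, le_rfl, hN1.symm⟩
      · obtain ⟨r, rfl⟩ : ∃ r, i = r + 1 := ⟨i - 1, by omega⟩
        rw [(hnb2 r).2 (by omega)]
        exact ⟨r, by omega, rfl⟩) (by
      rintro j ⟨i, hi, rfl⟩
      rcases Nat.mod_two_eq_zero_or_one i with h | h
      · rcases Nat.eq_zero_or_pos i with rfl | h2
        · rw [h0, hv]
          exact ⟨0, Nat.zero_le _, h0⟩
        · obtain ⟨r, rfl⟩ : ∃ r, i = r + 1 + 1 := ⟨i - 2, by omega⟩
          rw [(hnb2 r).1 (by omega)]
          exact ⟨r + 1, by omega, rfl⟩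
      · rw [(hnb i).2 h]
        rcases Nat.lt_or_ge i N with h1 | h1
        · exact ⟨i + 1, h1, rfl⟩
        · have : i = N := le_antisymm hi h1
          subst this
          exact ⟨_, le_rfl, hN1.symm⟩)
    refine ⟨sq m m' v N, fun j hj => ?_⟩
    obtain ⟨i, hi, rfl⟩ := hsub hj
    rcases Nat.eq_zero_or_pos i with rfl | h1
    · exact Or.inr (Or.inl h0)
    rcases hi.lt_or_eq with h2 | h2
    · left
      obtain ⟨r, rfl⟩ : ∃ r, i = r + 1 := ⟨i - 1, by omega⟩
      have h3 := hN2 (r + 1) h2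
      have h4 := hN2 r (by omega)
      rcases Nat.mod_two_eq_zero_or_one r with h | h
      · refine ⟨?_, ?_⟩
        · rw [(hnb2 r).2 h]; exact h4.symm
        · rw [(hnb (r + 1)).2 (by omega)]; exact h3
      · refine ⟨?_, ?_⟩
        · rw [(hnb (r + 1)).1 (by omega)]; exact h3
        · obtain ⟨q, rfl⟩ : ∃ q, r = q + 1 := ⟨r - 1, by omega⟩
          rw [(hnb2 q).1 (by omega)]; exact h4.symm
    · right; right; rw [h2]
  · push Not at hstop
    have hsub := hU {j | ∃ i, sq m m' v i = j} ⟨0, h0⟩ (by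
      rintro j ⟨i, rfl⟩
      rcases Nat.mod_two_eq_zero_or_one i with h | h
      · rw [(hnb i).1 h]
        exact ⟨i + 1, rfl⟩
      · obtain ⟨r, rfl⟩ : ∃ r, i = r + 1 := ⟨i - 1, by omega⟩
        rw [(hnb2 r).2 (by omega)]
        exact ⟨r, rfl⟩) (by
      rintro j ⟨i, rfl⟩
      rcases Nat.mod_two_eq_zero_or_one i with h | h
      · rcases Nat.eq_zero_or_pos i with rfl | h2
        · rw [h0, hv]
          exact ⟨0, h0⟩
        · obtain ⟨r, rfl⟩ : ∃ r, i = r + 1 + 1 := ⟨i - 2, by omega⟩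
          rw [(hnb2 r).1 (by omega)]
          exact ⟨r + 1, rfl⟩
      · rw [(hnb i).2 h]
        exact ⟨i + 1, rfl⟩)
    refine ⟨v, fun j hj => ?_⟩
    obtain ⟨i, rfl⟩ := hsub hj
    rcases Nat.eq_zero_or_pos i with rfl | h1
    · exact Or.inr (Or.inl h0)
    left
    obtain ⟨r, rfl⟩ : ∃ r, i = r + 1 := ⟨i - 1, by omega⟩
    have h3 := hstop (r + 1)
    have h4 := hstop r
    rcases Nat.mod_two_eq_zero_or_one r with h | h
    · refine ⟨?_, ?_⟩
      · rw [(hnb2 r).2 h]; exact h4.symm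
      · rw [(hnb (r + 1)).2 (by omega)]; exact h3
    · refine ⟨?_, ?_⟩
      · rw [(hnb (r + 1)).1 (by omega)]; exact h3
      · obtain ⟨q, rfl⟩ : ∃ q, r = q + 1 := ⟨r - 1, by omega⟩
        rw [(hnb2 q).1 (by omega)]; exact h4.symm

/-- the component of `v` -/
def comp {n : ℕ} (m m' : Fin n → Fin n) (v : Fin n) : Set (Fin n) :=
  {j | ∀ W : Set (Fin n), v ∈ W → (∀ j ∈ W, m j ∈ W) → (∀ j ∈ W, m' j ∈ W) → j ∈ W}

lemma comp_self {n : ℕ} (m m' : Fin n → Fin n) (v : Fin n) : v ∈ comp m m' v := fun _ h _ _ => h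

lemma comp_m {n : ℕ} {m m' : Fin n → Fin n} {v j : Fin n} (h : j ∈ comp m m' v) : m j ∈ comp m m' v :=
  fun W h1 h2 h3 => h2 _ (h W h1 h2 h3)

lemma comp_m' {n : ℕ} {m m' : Fin n → Fin n} {v j : Fin n} (h : j ∈ comp m m' v) : m' j ∈ comp m m' v :=
  fun W h1 h2 h3 => h3 _ (h W h1 h2 h3)

lemma comp_symm {n : ℕ} {m m' : Fin n → Fin n} (hm : ∀ j, m (m j) = j) (hm' : ∀ j, m' (m' j) = j) {v j : Fin n}
    (h : j ∈ comp m m' v) : v ∈ comp m m' j := by
  by_contra hcon
  refine h (comp m m' j)ᶜ hcon (fun x hx hx2 => hx ?_) (fun x hx hx2 => hx ?_) (comp_self m m' j)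
  · have := comp_m hx2
    rwa [hm] at this
  · have := comp_m' hx2
    rwa [hm'] at this

lemma comp_trans {n : ℕ} {m m' : Fin n → Fin n} {u v w : Fin n}
    (h : v ∈ comp m m' u) (h2 : w ∈ comp m m' v) : w ∈ comp m m' u :=
  h2 (comp m m' u) h (fun _ => comp_m) (fun _ => comp_m')

lemma toggle_covered {n : ℕ} (G : SimpleGraph (Fin n)) : Toggle 2 (covered G) := by
  classical
  rintro A ⟨m, hm1, hm2, hm3⟩ A' ⟨m', hm1', hm2', hm3'⟩
  set E := symmDiff A A' with hE
  have hEm : ∀ j, j ∈ E ↔ (m j ≠ j ∧ m' j = j) ∨ (m' j ≠ j ∧ m j = j) := by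
    intro j
    rw [hE, mem_symmDiff, hm3, hm3', not_not, not_not]
  set bl : Fin n → Finset (Fin n) := fun v => E.filter (fun j => j ∈ comp m m' v) with hbl
  have hblm : ∀ v j, j ∈ bl v ↔ j ∈ E ∧ j ∈ comp m m' v := by
    intro v j
    rw [hbl, mem_filter]
  refine ⟨E.image bl, ?_, ?_, ?_, ?_⟩
  · intro b hb
    obtain ⟨v, hv, rfl⟩ := mem_image.1 hb
    have hw : ∃ w, bl v ⊆ {v, w} := by
      rcases (hEm v).1 hv with h | h
      · obtain ⟨w, hw⟩ := walk_two m m' hm1 hm1' v h.2 (comp m m' v) (fun W h1 h2 h3 j hj => hj W h1 h2 h3)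
        refine ⟨w, fun j hj => ?_⟩
        rw [hblm] at hj
        rw [mem_insert, mem_singleton]
        rcases hw j hj.2 with h4 | h4 | h4
        · rcases (hEm j).1 hj.1 with h5 | h5
          · exact absurd h5.2 h4.2
          · exact absurd h5.2 h4.1
        · exact Or.inl h4
        · exact Or.inr h4
      · obtain ⟨w, hw⟩ := walk_two m' m hm1' hm1 v h.2 (comp m m' v) (fun W h1 h2 h3 j hj => hj W h1 h3 h2)
        refine ⟨w, fun j hj => ?_⟩
        rw [hblm] at hj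
        rw [mem_insert, mem_singleton]
        rcases hw j hj.2 with h4 | h4 | h4
        · rcases (hEm j).1 hj.1 with h5 | h5
          · exact absurd h5.2 h4.1
          · exact absurd h5.2 h4.2
        · exact Or.inl h4
        · exact Or.inr h4
    obtain ⟨w, hw⟩ := hw
    exact (card_le_card hw).trans card_le_two
  · intro b hb c hc hbc
    obtain ⟨v, hv, rfl⟩ := mem_image.1 (mem_coe.1 hb)
    obtain ⟨w, hw, rfl⟩ := mem_image.1 (mem_coe.1 hc)
    change Disjoint (bl v) (bl w)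
    rw [disjoint_left]
    intro j hj hj'
    rw [hblm] at hj hj'
    apply hbc
    ext x
    rw [hblm, hblm]
    constructor
    · rintro ⟨h1, h2⟩
      exact ⟨h1, comp_trans hj'.2 (comp_trans (comp_symm hm1 hm1' hj.2) h2)⟩
    · rintro ⟨h1, h2⟩
      exact ⟨h1, comp_trans hj.2 (comp_trans (comp_symm hm1 hm1' hj'.2) h2)⟩
  · ext j
    rw [mem_biUnion]
    constructor
    · rintro ⟨b, hb, hj⟩
      obtain ⟨v, hv, rfl⟩ := mem_image.1 hb
      exact ((hblm v j).1 hj).1
    · intro hj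
      exact ⟨bl j, mem_image_of_mem _ hj, (hblm j j).2 ⟨hj, comp_self m m' j⟩⟩
  · intro Q hQ
    set UQ : Set (Fin n) := {j | ∃ b ∈ Q, ∃ x ∈ b, j ∈ comp m m' x} with hUQ
    have hcl : ∀ j, j ∈ UQ → m j ∈ UQ := fun j ⟨b, hb, x, hx, h⟩ => ⟨b, hb, x, hx, comp_m h⟩
    have hcl' : ∀ j, j ∈ UQ → m' j ∈ UQ := fun j ⟨b, hb, x, hx, h⟩ => ⟨b, hb, x, hx, comp_m' h⟩
    have hQm : ∀ j, j ∈ Q.biUnion id ↔ j ∈ UQ ∧ j ∈ E := by
      intro j
      rw [mem_biUnion]
      constructor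
      · rintro ⟨b, hb, hj⟩
        obtain ⟨v, hv, hvb⟩ := mem_image.1 (hQ hb)
        refine ⟨⟨b, hb, j, hj, comp_self m m' j⟩, ?_⟩
        have hj2 : j ∈ bl v := by rw [hvb]; exact hj
        exact ((hblm v j).1 hj2).1
      · rintro ⟨⟨b, hb, x, hx, h⟩, hj⟩
        obtain ⟨v, hv, hvb⟩ := mem_image.1 (hQ hb)
        refine ⟨b, hb, ?_⟩
        have hx2 : x ∈ bl v := by rw [hvb]; exact hx
        have hj2 : j ∈ bl v := (hblm v j).2 ⟨hj, comp_trans ((hblm v x).1 hx2).2 h⟩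
        rw [hvb] at hj2
        exact hj2
    refine ⟨fun j => if j ∈ UQ then m' j else m j, fun j => ?_, fun j => ?_, fun j => ?_⟩
    · beta_reduce
      by_cases h : j ∈ UQ
      · rw [if_pos h, if_pos (hcl' j h), hm1']
      · rw [if_neg h, if_neg (fun h' => h (by have := hcl _ h'; rwa [hm1] at this)), hm1]
    · beta_reduce
      by_cases h : j ∈ UQ
      · rw [if_pos h]; exact hm2' j
      · rw [if_neg h]; exact hm2 j
    · beta_reduce
      rw [mem_symmDiff, hQm, hEm, hm3]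
      by_cases h : j ∈ UQ
      · rw [if_pos h]
        by_cases h1 : m j = j <;> by_cases h2 : m' j = j <;> simp [h, h1, h2]
      · rw [if_neg h]
        simp [h]

end Pool.Agent.K1H93.KB
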